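import Pool.Agent.R113.ZD.Main

/-!
# MP_90aa3f_co, Q1: finite palindromic defect of a fixed point of a primitive marked morphism is zero
-/

set_option autoImplicit false

namespace Pool.Agent.Results.MP_90aa3f_co.ZeroDefectMarked

variable {A : Type*}

/-- the factor of length `n` of the infinite word `u` that starts at position `i` -/
def seg (u : ℕ → A) (i n : ℕ) : List A := (List.range n).map (fun k => u (i + k))

/-- `w` is a factor of the infinite word `u` -/
def IsFactor (u : ℕ → A) (w : List A) : Prop := ∃ i, w = seg u i w.length

/-- the palindromic factors of a finite word, the empty word included -/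
def palFactors (w : List A) : Set (List A) := {p | p <:+: w ∧ p.reverse = p}

/-- the palindromic defect `D(w) = |w| + 1 - #(palindromic factors)` of a finite word (the
subtraction is never truncated, see `palFactors_ncard_le`) -/
noncomputable def defect (w : List A) : ℕ := w.length + 1 - (palFactors w).ncard

theorem palFactors_ncard_le (w : List A) : (palFactors w).ncard ≤ w.length + 1 :=
  Pool.Agent.R113.ZD.palFac_ncard_le w

/-- the palindromic defect `D(u)` of an infinite word: the supremum of `D(w)` over all factors -/
noncomputable def defectInf (u : ℕ → A) : ℕ∞ :=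
  ⨆ w : {w : List A // IsFactor u w}, (defect w.1 : ℕ∞)

/-- the image of a word under the morphism with letter images `φ a` -/
def ext (φ : A → List A) (w : List A) : List A := w.flatMap φ

/-- `φ` is primitive: for some `k` every letter `b` occurs in `φ^k(a)` for every letter `a` -/
def Primitive (φ : A → List A) : Prop := ∃ k : ℕ, ∀ a b : A, b ∈ (ext φ)^[k] [a]

/-- the infinite word `u` satisfies `φ(u) = u`: the image of each prefix of `u` is a prefix of `u`,
and these images are unboundedly long -/
def IsFixedPoint (φ : A → List A) (u : ℕ → A) : Prop :=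
  (∀ n, ext φ (seg u 0 n) = seg u 0 (ext φ (seg u 0 n)).length) ∧
    ∀ N, ∃ n, N ≤ (ext φ (seg u 0 n)).length

/-- conjugate morphisms -/
def Conjugate (φ ψ : A → List A) : Prop :=
  ∃ w : List A, (∀ a, φ a ++ w = w ++ ψ a) ∨ (∀ a, w ++ φ a = ψ a ++ w)

/-- marked morphisms: some conjugate has each letter as the last letter of an image, and some
conjugate has each letter as the first letter of an image -/
def Marked (φ : A → List A) : Prop :=
  ∃ φ₁ φ₂ : A → List A, Conjugate φ φ₁ ∧ Conjugate φ φ₂ ∧
    {x | ∃ a, (φ₁ a).getLast? = some x} = Set.univ ∧
    {x | ∃ a, (φ₂ a).head? = some x} = Set.univ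

/-- **Q1, affirmative answer.** -/
theorem result [Finite A] (φ : A → List A) (u : ℕ → A) (hprim : Primitive φ) (hmark : Marked φ)
    (hfix : IsFixedPoint φ u) (hdef : defectInf u < ⊤) : defectInf u = 0 :=
  Pool.Agent.R113.ZD.zero_defect φ u hprim hmark hfix hdef

end Pool.Agent.Results.MP_90aa3f_co.ZeroDefectMarked
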